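import Mathlib

namespace Pool.Agent.KS6_79.Rainbow

/-- The caterpillar `C(h_0, ..., h_{s-1})`: its spine is the path on the vertices `Sum.inl 0`,
`Sum.inl 1`, ..., and `h i` leaves `Sum.inr ⟨i, j⟩` are attached to the spine vertex
`Sum.inl i`. -/
def caterpillar {s : ℕ} (h : Fin s → ℕ) : SimpleGraph (Fin s ⊕ (Σ i : Fin s, Fin (h i))) :=
  SimpleGraph.fromRel fun u v =>
    match u, v with
    | Sum.inl i, Sum.inl j => (j : ℕ) = (i : ℕ) + 1
    | Sum.inl i, Sum.inr p => p.1 = i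
    | Sum.inr _, _ => False

/-- `f` is a rainbow labeling of `T` : it is a bijection onto `A`, and two edges with the
same induced label `f u + f v` are the same edge. -/
def IsRainbowLabeling {V A : Type*} [Add A] (T : SimpleGraph V) (f : V → A) : Prop :=
  Function.Bijective f ∧
    ∀ u v u' v' : V, T.Adj u v → T.Adj u' v' → f u + f v = f u' + f v' → s(u, v) = s(u', v')

/-- `T` is `A`-rainbow. -/
def IsRainbow (A : Type*) [Add A] {V : Type*} (T : SimpleGraph V) : Prop :=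
  ∃ f : V → A, IsRainbowLabeling T f

/-- The three exceptional families of the question. -/
def Exceptional (m h₁ h₂ h₃ : ℕ) : Prop :=
  (h₂ % m = m - 2 ∧ (h₁ % m = 0 ∧ h₃ % m = m - 1 ∨ h₁ % m = m - 1 ∧ h₃ % m = 0)) ∨
  (h₂ = 0 ∧ (h₁ % m = m - 1 ∧ h₃ % m = m - 2 ∨ h₁ % m = m - 2 ∧ h₃ % m = m - 1)) ∨
  (h₂ = 1 ∧ (h₁ % m = m - 1 ∧ h₃ % m = m - 3 ∨ h₁ % m = m - 3 ∧ h₃ % m = m - 1))

end Pool.Agent.KS6_79.Rainbow
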