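import Pool.Agent.KS6_79.RainbowDefs

namespace Pool.Agent.KS6_79.Rainbow

open Finset

/-! ### Labelings from a partition of the group -/

/-- The shift attached to a type: `0 ↦ a`, `1 ↦ 0`, `2 ↦ c`. -/
def sh {A : Type*} [AddCommGroup A] (a c : A) (t : Fin 3) : A :=
  if t = 0 then a else if t = 2 then c else 0

/-- The label map. -/
def ph {A : Type*} [AddCommGroup A] (a c : A) (ty : A → Fin 3) (x : A) : A :=
  x + sh a c (ty x)

/-- The combinatorial data producing a labeling. -/
def Data (A : Type*) [AddCommGroup A] [Fintype A] (x z : ℕ) : Prop :=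
  ∃ (a c : A) (ty : A → Fin 3), a ≠ 0 ∧ c ≠ 0 ∧ a ≠ c ∧ ty 0 = 1 ∧ ty a = 1 ∧ ty c = 1 ∧
    (∀ u v, u ≠ 0 → v ≠ 0 → ph a c ty u = ph a c ty v → u = v) ∧
    Nat.card {u // ty u = 0} = x ∧ Nat.card {u // ty u = 2} = z

variable {A : Type*} [AddCommGroup A] [Fintype A]

/-- The parent of a vertex of `C(h₁,h₂,h₃)` rooted at the middle spine vertex. -/
def parent {h : Fin 3 → ℕ} : Fin 3 ⊕ (Σ i : Fin 3, Fin (h i)) → Fin 3 ⊕ (Σ i : Fin 3, Fin (h i))
  | Sum.inl _ => Sum.inl 1
  | Sum.inr p => Sum.inl p.1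

lemma adj_parent {h : Fin 3 → ℕ} {u v : Fin 3 ⊕ (Σ i : Fin 3, Fin (h i))}
    (huv : (caterpillar h).Adj u v) :
    (u ≠ Sum.inl 1 ∧ parent u = v) ∨ (v ≠ Sum.inl 1 ∧ parent v = u) := by
  unfold caterpillar at huv
  rw [SimpleGraph.fromRel_adj] at huv
  obtain ⟨hne, h1 | h1⟩ := huv
  · rcases u with i | p <;> rcases v with j | q
    · simp only at h1
      fin_cases i <;> fin_cases j <;> simp_all [parent]
    · simp only at h1
      right
      simp [parent, h1]
    · exact h1.elim
    · exact h1.elim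
  · rcases v with i | p <;> rcases u with j | q
    · simp only at h1
      fin_cases i <;> fin_cases j <;> simp_all [parent]
    · simp only at h1
      left
      simp [parent, h1]
    · exact h1.elim
    · exact h1.elim

lemma rainbow_of_data {x y z : ℕ} (hd : Data A x z) (hc : Fintype.card A = x + y + z + 3) :
    IsRainbow A (caterpillar ![x, y, z]) := by
  classical
  obtain ⟨a, c, ty, ha, hc0, hac, h0, hta, htc, hinj, hx, hz⟩ := hd
  have hy : Nat.card {u // ty u = 1 ∧ u ≠ 0 ∧ u ≠ a ∧ u ≠ c} = y := by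
    rw [Nat.card_eq_fintype_card, Fintype.card_subtype] at hx hz ⊢
    have e1 : ({u | ty u = 1 ∧ u ≠ 0 ∧ u ≠ a ∧ u ≠ c} : Finset A) =
        ({u | ty u = 1} : Finset A) \ {0, a, c} := by
      ext u
      simp
    have e2 : (({0, a, c} : Finset A)).card = 3 := by
      rw [card_insert_of_notMem, card_insert_of_notMem, card_singleton]
      · simpa using hac
      · simp [ha.symm, hc0.symm]
    have e3 : ({0, a, c} : Finset A) ⊆ ({u | ty u = 1} : Finset A) := by
      intro u hu
      simp only [mem_insert, mem_singleton] at hu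
      rcases hu with rfl | rfl | rfl <;> simp [h0, hta, htc]
    rw [e1, card_sdiff_of_subset e3, e2]
    have e4 : Fintype.card A = ({u | ty u = 0} : Finset A).card + ({u | ty u = 1} : Finset A).card
        + ({u | ty u = 2} : Finset A).card := by
      rw [← card_univ, ← card_union_of_disjoint, ← card_union_of_disjoint]
      · congr 1
        ext u
        simp only [mem_univ, mem_union, mem_filter, true_and, true_iff]
        omega
      · rw [disjoint_left]
        intro u hu hu'
        simp only [mem_union, mem_filter, mem_univ, true_and] at hu hu'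
        omega
      · rw [disjoint_left]
        intro u hu hu'
        simp only [mem_filter, mem_univ, true_and] at hu hu'
        omega
    omega
  have eX : Nonempty (Fin x ≃ {u // ty u = 0}) := ⟨(Finite.equivFinOfCardEq hx).symm⟩
  have eZ : Nonempty (Fin z ≃ {u // ty u = 2}) := ⟨(Finite.equivFinOfCardEq hz).symm⟩
  have eY : Nonempty (Fin y ≃ {u // ty u = 1 ∧ u ≠ 0 ∧ u ≠ a ∧ u ≠ c}) :=
    ⟨(Finite.equivFinOfCardEq hy).symm⟩
  obtain ⟨eX⟩ := eX
  obtain ⟨eY⟩ := eY
  obtain ⟨eZ⟩ := eZ
  let f : Fin 3 ⊕ (Σ i : Fin 3, Fin (![x, y, z] i)) → A := fun w =>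
    match w with
    | Sum.inl 0 => a
    | Sum.inl 1 => 0
    | Sum.inl 2 => c
    | Sum.inr ⟨0, j⟩ => (eX j : A)
    | Sum.inr ⟨1, j⟩ => (eY j : A)
    | Sum.inr ⟨2, j⟩ => (eZ j : A)
  have hsurj : Function.Surjective f := by
    intro u
    by_cases hu0 : ty u = 0
    · exact ⟨Sum.inr ⟨0, eX.symm ⟨u, hu0⟩⟩, by simp [f]⟩
    by_cases hu2 : ty u = 2
    · exact ⟨Sum.inr ⟨2, eZ.symm ⟨u, hu2⟩⟩, by simp [f]⟩
    have hu1 : ty u = 1 := by omega
    by_cases h1 : u = 0
    · exact ⟨Sum.inl 1, by simp [f, h1]⟩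
    by_cases h2 : u = a
    · exact ⟨Sum.inl 0, by simp [f, h2]⟩
    by_cases h3 : u = c
    · exact ⟨Sum.inl 2, by simp [f, h3]⟩
    exact ⟨Sum.inr ⟨1, eY.symm ⟨u, hu1, h1, h2, h3⟩⟩, by simp [f]⟩
  have hbij : Function.Bijective f := by
    rw [Fintype.bijective_iff_surjective_and_card]
    refine ⟨hsurj, ?_⟩
    simp [hc, Fin.sum_univ_three]
    omega
  have hlab : ∀ w, w ≠ Sum.inl 1 → f w + f (parent w) = ph a c ty (f w) ∧ f w ≠ 0 := by
    intro w hw
    have h1 : f (Sum.inl 1) = 0 := rfl
    refine ⟨?_, fun h => hw (hbij.1 (h.trans h1.symm))⟩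
    match w, hw with
    | Sum.inl 0, _ => simp [f, parent, ph, sh, hta]
    | Sum.inl 2, _ => simp [f, parent, ph, sh, htc]
    | Sum.inr ⟨0, j⟩, _ => simp [f, parent, ph, sh, (eX j).2]
    | Sum.inr ⟨1, j⟩, _ => simp [f, parent, ph, sh, (eY j).2.1]
    | Sum.inr ⟨2, j⟩, _ => simp [f, parent, ph, sh, (eZ j).2]
  have key : ∀ w w', w ≠ Sum.inl 1 → w' ≠ Sum.inl 1 →
      f w + f (parent w) = f w' + f (parent w') → w = w' := by
    intro w w' hw hw' h
    obtain ⟨h1, h2⟩ := hlab w hw
    obtain ⟨h3, h4⟩ := hlab w' hw'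
    rw [h1, h3] at h
    exact hbij.1 (hinj _ _ h2 h4 h)
  refine ⟨f, hbij, ?_⟩
  intro u v u' v' huv huv' h
  rcases adj_parent huv with ⟨h1, h2⟩ | ⟨h1, h2⟩ <;> rcases adj_parent huv' with ⟨h3, h4⟩ | ⟨h3, h4⟩
  · subst h2 h4
    rw [key _ _ h1 h3 h]
  · subst h2 h4
    rw [key _ _ h1 h3 (by rw [h, add_comm]), Sym2.eq_swap]
  · subst h2 h4
    rw [key _ _ h1 h3 (by rw [← h, add_comm]), Sym2.eq_swap]
  · subst h2 h4
    rw [key _ _ h1 h3 (by rw [add_comm, h, add_comm])]

/-! ### Coordinates along a cyclic subgroup of maximal order -/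

lemma exists_coords (m : ℕ) [NeZero m] (hm : AddMonoid.exponent A = m) :
    ∃ (n : ℕ) (E : Fin (n + 1) × ZMod m ≃ A) (ι : ZMod m →+ A),
      (∀ j i t, E (j, i + t) = E (j, i) + ι t) ∧ E (0, 0) = 0 ∧ Function.Injective ι ∧
      (n + 1) * m = Fintype.card A := by
  classical
  obtain ⟨g, hg⟩ : ∃ g : A, addOrderOf g = m := by
    have := AddMonoid.exists_addOrderOf_eq_exponent (G := A) AddMonoid.ExponentExists.of_finite
    rwa [hm] at this
  let ι : ZMod m →+ A := ZMod.lift m ⟨zmultiplesHom A g, by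
    have := addOrderOf_nsmul_eq_zero g
    rw [hg] at this
    simpa using this⟩
  have hι : ∀ k : ℤ, ι (k : ZMod m) = k • g := fun k => by simp [ι]
  have hinj : Function.Injective ι := by
    rw [injective_iff_map_eq_zero]
    intro t ht
    obtain ⟨k, rfl⟩ := ZMod.intCast_surjective t
    rw [hι, ← addOrderOf_dvd_iff_zsmul_eq_zero, hg] at ht
    exact (ZMod.intCast_zmod_eq_zero_iff_dvd _ _).2 ht
  have hrange : ι.range = AddSubgroup.zmultiples g := by
    ext x
    rw [AddMonoidHom.mem_range, AddSubgroup.mem_zmultiples_iff]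
    constructor
    · rintro ⟨t, rfl⟩
      obtain ⟨k, rfl⟩ := ZMod.intCast_surjective t
      exact ⟨k, (hι k).symm⟩
    · rintro ⟨k, rfl⟩
      exact ⟨k, hι k⟩
  let Q := A ⧸ ι.range
  have : Fintype Q := Fintype.ofFinite _
  have hcard : Fintype.card Q * m = Fintype.card A := by
    have h1 := AddSubgroup.card_eq_card_quotient_mul_card_addSubgroup ι.range
    rw [Nat.card_eq_fintype_card, Nat.card_eq_fintype_card] at h1
    rw [h1]
    congr 1
    have : Nat.card ι.range = Nat.card (ZMod m) :=
      (Nat.card_congr (Equiv.ofInjective ι hinj)).symm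
    rw [this, Nat.card_zmod]
  have hpos : 0 < Fintype.card Q := Fintype.card_pos
  obtain ⟨n, hn⟩ : ∃ n, Fintype.card Q = n + 1 := ⟨Fintype.card Q - 1, by omega⟩
  obtain ⟨e0⟩ : Nonempty (Fin (n + 1) ≃ Q) := ⟨(Fintype.equivFinOfCardEq hn).symm⟩
  let e : Fin (n + 1) ≃ Q := (Equiv.swap 0 (e0.symm 0)).trans e0
  have he0 : e 0 = 0 := by simp [e]
  let σ : Q → A := fun q => if q = 0 then 0 else Quotient.out q
  have hσ : ∀ q, ((σ q : A) : Q) = q := by
    intro q
    by_cases h : q = 0
    · simp [σ, h]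
    · simp only [σ, h, if_false]
      exact Quotient.out_eq q
  have hσ0 : σ 0 = 0 := by simp [σ]
  let F : Fin (n + 1) × ZMod m → A := fun p => σ (e p.1) + ι p.2
  have hq : ∀ p, ((F p : A) : Q) = e p.1 := by
    intro p
    have h1 : ((F p : A) : Q) = ((σ (e p.1) : A) : Q) := by
      rw [eq_comm, QuotientAddGroup.eq]
      simp [F]
    rw [h1, hσ]
  have hFinj : Function.Injective F := by
    intro p p' h
    have h1 : e p.1 = e p'.1 := by rw [← hq, ← hq, h]
    have h2 : p.1 = p'.1 := e.injective h1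
    have h3 : ι p.2 = ι p'.2 := by
      simp only [F, h2] at h
      exact add_left_cancel h
    exact Prod.ext h2 (hinj h3)
  have hFbij : Function.Bijective F := by
    rw [Fintype.bijective_iff_injective_and_card]
    refine ⟨hFinj, ?_⟩
    rw [Fintype.card_prod, Fintype.card_fin, ZMod.card, ← hn, hcard]
  refine ⟨n, Equiv.ofBijective F hFbij, ι, ?_, ?_, hinj, ?_⟩
  · intro j i t
    simp [F, add_assoc]
  · simp [F, he0, hσ0]
  · rw [← hn, hcard]

/-! ### Patterns on the cosets -/

/-- A pattern for the coset containing `0`. -/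
def PatS {m : ℕ} (a c : ZMod m) (ty : ZMod m → Fin 3) : Prop :=
  ty 0 = 1 ∧ ty a = 1 ∧ ty c = 1 ∧
    ∀ u v, u ≠ 0 → v ≠ 0 → ph a c ty u = ph a c ty v → u = v

/-- A pattern for another coset. -/
def PatO {m : ℕ} (a c : ZMod m) (ty : ZMod m → Fin 3) : Prop :=
  Function.Injective (ph a c ty)

/-- The totals `x`, `z` are reached on `n + 1` cosets. -/
def Tot {m : ℕ} [NeZero m] (a c : ZMod m) (n x z : ℕ) : Prop :=
  ∃ ty : Fin (n + 1) → ZMod m → Fin 3, PatS a c (ty 0) ∧ (∀ j, j ≠ 0 → PatO a c (ty j)) ∧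
    ∑ j, Nat.card {i // ty j i = 0} = x ∧ ∑ j, Nat.card {i // ty j i = 2} = z

omit [Fintype A] in
lemma ph_coords {m n : ℕ} {E : Fin (n + 1) × ZMod m ≃ A} {ι : ZMod m →+ A}
    (hE : ∀ j i t, E (j, i + t) = E (j, i) + ι t) (a c : ZMod m)
    (ty : Fin (n + 1) → ZMod m → Fin 3) (p : Fin (n + 1) × ZMod m) :
    ph (ι a) (ι c) (fun u => ty (E.symm u).1 (E.symm u).2) (E p) =
      E (p.1, ph a c (ty p.1) p.2) := by
  obtain ⟨j, i⟩ := p
  simp only [ph, Equiv.symm_apply_apply, hE]
  congr 1
  unfold sh
  split_ifs <;> simp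

lemma card_coords {A : Type*} {m n : ℕ} [NeZero m] (E : Fin (n + 1) × ZMod m ≃ A)
    (ty : Fin (n + 1) → ZMod m → Fin 3) (t : Fin 3) :
    Nat.card {u : A // ty (E.symm u).1 (E.symm u).2 = t} = ∑ j, Nat.card {i // ty j i = t} := by
  have h1 : Nat.card {u : A // ty (E.symm u).1 (E.symm u).2 = t} =
      Nat.card {p : Fin (n + 1) × ZMod m // ty p.1 p.2 = t} :=
    Nat.card_congr (E.symm.subtypeEquiv fun u => Iff.rfl)
  have h2 : Nat.card {p : Fin (n + 1) × ZMod m // ty p.1 p.2 = t} =
      Nat.card (Σ j : Fin (n + 1), {i // ty j i = t}) :=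
    Nat.card_congr
      { toFun := fun p => ⟨p.1.1, p.1.2, p.2⟩
        invFun := fun q => ⟨(q.1, q.2.1), q.2.2⟩
        left_inv := fun _ => rfl
        right_inv := fun _ => rfl }
  rw [h1, h2, Nat.card_sigma]

lemma data_of_tot {m : ℕ} [NeZero m] (hm : AddMonoid.exponent A = m) {a c : ZMod m}
    (ha : a ≠ 0) (hc : c ≠ 0) (hac : a ≠ c) {x z : ℕ}
    (h : ∀ n, (n + 1) * m = Fintype.card A → Tot a c n x z) : Data A x z := by
  obtain ⟨n, E, ι, hE, hE0, hinj, hcard⟩ := exists_coords m hm
  obtain ⟨ty, ⟨h0, hta, htc, hS⟩, hO, hx, hz⟩ := h n hcard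
  have hι : ∀ t, ι t = E (0, t) := fun t => by
    have := hE 0 0 t
    rw [zero_add, hE0, zero_add] at this
    exact this.symm
  have hsymm : ∀ t, E.symm (ι t) = (0, t) := fun t => by rw [hι, Equiv.symm_apply_apply]
  have hsymm0 : E.symm 0 = (0, 0) := by rw [← hE0, Equiv.symm_apply_apply]
  refine ⟨ι a, ι c, fun u => ty (E.symm u).1 (E.symm u).2, ?_, ?_, ?_, ?_, ?_, ?_, ?_, ?_, ?_⟩
  · exact fun h => ha (hinj (h.trans (map_zero ι).symm))
  · exact fun h => hc (hinj (h.trans (map_zero ι).symm))
  · exact fun h => hac (hinj h)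
  · simp only [hsymm0, h0]
  · simp only [hsymm, hta]
  · simp only [hsymm, htc]
  · intro u v hu hv huv
    obtain ⟨⟨j, i⟩, rfl⟩ := E.surjective u
    obtain ⟨⟨j', i'⟩, rfl⟩ := E.surjective v
    rw [ph_coords hE, ph_coords hE] at huv
    have h3 := E.injective huv
    simp only [Prod.mk.injEq] at h3
    obtain ⟨rfl, h4⟩ := h3
    by_cases hj : j = 0
    · subst hj
      have hi : i ≠ 0 := by rintro rfl; exact hu hE0
      have hi' : i' ≠ 0 := by rintro rfl; exact hv hE0
      rw [hS i i' hi hi' h4]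
    · rw [hO j hj h4]
  · rw [card_coords E ty 0, hx]
  · rw [card_coords E ty 2, hz]

lemma tot_zero {m : ℕ} [NeZero m] {a c : ZMod m} {x z : ℕ} (ty : ZMod m → Fin 3)
    (h : PatS a c ty) (hx : Nat.card {i // ty i = 0} = x) (hz : Nat.card {i // ty i = 2} = z) :
    Tot a c 0 x z := by
  refine ⟨fun _ => ty, h, fun j hj => absurd (Fin.ext (by simp)) hj, ?_, ?_⟩
  · simpa using hx
  · simpa using hz

lemma tot_succ {m : ℕ} [NeZero m] {a c : ZMod m} {n x z x' z' : ℕ} (ht : Tot a c n x z)
    (ty' : ZMod m → Fin 3) (h : PatO a c ty') (hx : Nat.card {i // ty' i = 0} = x')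
    (hz : Nat.card {i // ty' i = 2} = z') : Tot a c (n + 1) (x + x') (z + z') := by
  obtain ⟨ty, h0, hO, hx', hz'⟩ := ht
  refine ⟨Fin.snoc (α := fun _ => ZMod m → Fin 3) ty ty', ?_, ?_, ?_, ?_⟩
  · have : (0 : Fin (n + 1 + 1)) = Fin.castSucc 0 := rfl
    rw [this, Fin.snoc_castSucc]
    exact h0
  · intro j
    refine Fin.lastCases ?_ (fun i => ?_) j
    · intro _
      rw [Fin.snoc_last]
      exact h
    · intro hi
      rw [Fin.snoc_castSucc]
      exact hO i (fun h => hi (by rw [h]; rfl))
  · rw [Fin.sum_univ_castSucc]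
    simp only [Fin.snoc_castSucc, Fin.snoc_last, hx', hx]
  · rw [Fin.sum_univ_castSucc]
    simp only [Fin.snoc_castSucc, Fin.snoc_last, hz', hz]

lemma tot_blocks {m : ℕ} [NeZero m] {a c : ZMod m} {n x z : ℕ} (ht : Tot a c n x z)
    (p q r : ℕ) : Tot a c (n + p + q + r) (x + m * p) (z + m * r) := by
  have hcard : Nat.card {i : ZMod m // True} = m := by simp
  have hp : ∀ p, Tot a c (n + p) (x + m * p) z := by
    intro p
    induction p with
    | zero => simpa using ht
    | succ p ih =>
      have := tot_succ ih (x' := m) (z' := 0) (fun _ => 0) ?_ (by simp) (by simp)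
      · convert this using 1 <;> ring
      · intro u v huv
        simpa [ph] using huv
  have hq : ∀ q, Tot a c (n + p + q) (x + m * p) z := by
    intro q
    induction q with
    | zero => simpa using hp p
    | succ q ih =>
      have := tot_succ ih (x' := 0) (z' := 0) (fun _ => 1) ?_ (by simp) (by simp)
      · convert this using 1 <;> ring
      · intro u v huv
        simpa [ph] using huv
  induction r with
  | zero => simpa using hq q
  | succ r ih =>
    have := tot_succ ih (x' := 0) (z' := m) (fun _ => 2) ?_ (by simp) (by simp)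
    · convert this using 1 <;> ring
    · intro u v huv
      simpa [ph] using huv

/-- Reversing the caterpillar. -/
lemma data_symm {x z : ℕ} (h : Data A x z) : Data A z x := by
  obtain ⟨a, c, ty, ha, hc0, hac, h0, hta, htc, hinj, hx, hz⟩ := h
  have h2 : ∀ t : Fin 3, ((2 : Fin 3) - t = 0 ↔ t = 2) ∧ ((2 : Fin 3) - t = 2 ↔ t = 0) ∧
      ((2 : Fin 3) - t = 1 ↔ t = 1) := by decide
  have h3 : ∀ u, ph c a (fun u => 2 - ty u) u = ph a c ty u := by
    intro u
    simp only [ph, sh, (h2 (ty u)).1, (h2 (ty u)).2.1]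
    by_cases h4 : ty u = 2
    · simp [h4]
    · by_cases h5 : ty u = 0
      · simp [h5]
      · simp [h4, h5]
  refine ⟨c, a, fun u => 2 - ty u, hc0, ha, hac.symm, by simp [h0], by simp [htc], by simp [hta],
    ?_, ?_, ?_⟩
  · intro u v hu hv huv
    rw [h3, h3] at huv
    exact hinj u v hu hv huv
  · simp only [(h2 _).1]
    exact hz
  · simp only [(h2 _).2.1]
    exact hx

/-! ### Patterns from words -/

/-- Local conditions on a word `w` of length `m`. -/
def Loc (m τ lo : ℕ) (w : ℕ → Fin 3) : Prop :=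
  ∀ p, lo ≤ p → p < m →
    (w p = 0 → p + 1 < m ∧ w (p + 1) ≠ 2) ∧ (w p = 0 → p + 1 + τ < m → w (p + 1 + τ) ≠ 1) ∧
    (w p = 2 → p + τ < m → w (p + τ) ≠ 1) ∧ (w p = 1 → τ ≤ p)

lemma loc_inj {m τ lo : ℕ} [NeZero m] {w : ℕ → Fin 3} (h : Loc m τ lo w) (u v : ZMod m)
    (hu : lo ≤ u.val) (hv : lo ≤ v.val)
    (huv : ph ((τ + 1 : ℕ) : ZMod m) (τ : ZMod m) (fun i => w i.val) u =
      ph ((τ + 1 : ℕ) : ZMod m) (τ : ZMod m) (fun i => w i.val) v) : u = v := by
  have hψ : ∀ u : ZMod m, lo ≤ u.val → ∃ k : ℕ, k < m ∧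
      ph ((τ + 1 : ℕ) : ZMod m) (τ : ZMod m) (fun i => w i.val) u = (k : ZMod m) + τ ∧
      ((w u.val = 0 ∧ k = u.val + 1) ∨ (w u.val = 2 ∧ k = u.val) ∨
        (w u.val = 1 ∧ k + τ = u.val)) := by
    intro u hu
    have hum : u.val < m := ZMod.val_lt u
    obtain ⟨h1, h2, h3, h4⟩ := h u.val hu hum
    have hcast : ((u.val : ℕ) : ZMod m) = u := ZMod.natCast_zmod_val u
    have h5 : w u.val = 0 ∨ w u.val = 1 ∨ w u.val = 2 := by omega
    rcases h5 with h5 | h5 | h5
    · refine ⟨u.val + 1, (h1 h5).1, ?_, Or.inl ⟨h5, rfl⟩⟩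
      simp only [ph, sh, h5, if_true]
      push_cast
      rw [hcast]
      ring
    · refine ⟨u.val - τ, by omega, ?_, Or.inr (Or.inr ⟨h5, by have := h4 h5; omega⟩)⟩
      simp only [ph, sh, h5]
      rw [Nat.cast_sub (h4 h5), hcast]
      simp
    · refine ⟨u.val, hum, ?_, Or.inr (Or.inl ⟨h5, rfl⟩)⟩
      simp only [ph, sh, h5, hcast]
      simp
  obtain ⟨k, hk, hk1, hk2⟩ := hψ u hu
  obtain ⟨l, hl, hl1, hl2⟩ := hψ v hv
  rw [hk1, hl1] at huv
  have hkl : k = l := by
    have h6 := add_right_cancel huv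
    have h7 := (ZMod.natCast_eq_natCast_iff' k l m).1 h6
    rwa [Nat.mod_eq_of_lt hk, Nat.mod_eq_of_lt hl] at h7
  apply ZMod.val_injective m
  have hum : u.val < m := ZMod.val_lt u
  have hvm : v.val < m := ZMod.val_lt v
  obtain ⟨a1, a2, a3, a4⟩ := h u.val hu hum
  obtain ⟨b1, b2, b3, b4⟩ := h v.val hv hvm
  rcases hk2 with ⟨c1, c2⟩ | ⟨c1, c2⟩ | ⟨c1, c2⟩ <;> rcases hl2 with ⟨d1, d2⟩ | ⟨d1, d2⟩ | ⟨d1, d2⟩
  · omega
  · exfalso
    have h8 : v.val = u.val + 1 := by omega
    rw [h8] at d1
    exact (a1 c1).2 d1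
  · exfalso
    have h8 : v.val = u.val + 1 + τ := by omega
    rw [h8] at d1
    exact a2 c1 (by omega) d1
  · exfalso
    have h8 : u.val = v.val + 1 := by omega
    rw [h8] at c1
    exact (b1 d1).2 c1
  · omega
  · exfalso
    have h8 : v.val = u.val + τ := by omega
    rw [h8] at d1
    exact a3 c1 (by omega) d1
  · exfalso
    have h8 : u.val = v.val + 1 + τ := by omega
    rw [h8] at c1
    exact b2 d1 (by omega) c1
  · exfalso
    have h8 : u.val = v.val + τ := by omega
    rw [h8] at c1
    exact b3 d1 (by omega) c1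
  · omega

lemma card_word {m : ℕ} [NeZero m] (w : ℕ → Fin 3) (t : Fin 3) :
    Nat.card {i : ZMod m // w i.val = t} = Nat.count (fun p => w p = t) m := by
  classical
  rw [Nat.count_eq_card_filter_range, Nat.card_eq_fintype_card, Fintype.card_subtype]
  refine Finset.card_bij (fun i _ => i.val) ?_ ?_ ?_
  · intro i hi
    simp only [mem_filter, mem_univ, true_and] at hi
    simp only [mem_filter, mem_range]
    exact ⟨ZMod.val_lt i, hi⟩
  · intro i _ j _ hij
    exact ZMod.val_injective m hij
  · intro p hp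
    simp only [mem_filter, mem_range] at hp
    refine ⟨(p : ZMod m), ?_, ZMod.val_natCast_of_lt hp.1⟩
    simp only [mem_filter, mem_univ, true_and]
    rw [ZMod.val_natCast_of_lt hp.1]
    exact hp.2

/-! ### Counting in words -/

lemma count_congr_lt {p q : ℕ → Prop} [DecidablePred p] [DecidablePred q] {n : ℕ}
    (h : ∀ k < n, p k ↔ q k) : Nat.count p n = Nat.count q n :=
  le_antisymm (Nat.count_mono_left fun k hk => (h k hk).1)
    (Nat.count_mono_left fun k hk => (h k hk).2)

lemma count_three (w : ℕ → Fin 3) (m : ℕ) :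
    Nat.count (fun p => w p = 0) m + Nat.count (fun p => w p = 1) m +
      Nat.count (fun p => w p = 2) m = m := by
  induction m with
  | zero => simp
  | succ m ih =>
    rw [Nat.count_succ, Nat.count_succ, Nat.count_succ]
    have h5 : w m = 0 ∨ w m = 1 ∨ w m = 2 := by omega
    rcases h5 with h5 | h5 | h5 <;> simp [h5] <;> omega

/-- In `R` blocks of length `d`, the number of `k` with `d ∣ k + 1` is `R`. -/
lemma count_dvd_succ (d R : ℕ) (hd : 0 < d) :
    Nat.count (fun k => d ∣ k + 1) (R * d) = R := by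
  induction R with
  | zero => simp
  | succ R ih =>
    rw [Nat.succ_mul, Nat.count_add, ih]
    congr 1
    have h1 : Nat.count (fun k => d ∣ R * d + k + 1) d = Nat.count (fun k => k = d - 1) d := by
      apply count_congr_lt
      intro k hk
      rw [add_assoc, Nat.dvd_add_right (Dvd.intro_left R rfl)]
      constructor
      · intro h
        have := Nat.le_of_dvd (by omega) h
        omega
      · intro h
        rw [h, Nat.sub_add_cancel hd]
    rw [h1]
    obtain ⟨e, rfl⟩ : ∃ e, d = e + 1 := ⟨d - 1, by omega⟩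
    rw [Nat.count_succ]
    simp only [Nat.add_sub_cancel, if_true]
    rw [Nat.count_of_forall_not]
    intro n hn
    omega

/-- The word `(0^τ 1)^R 2^*`. -/
def wO (τ R : ℕ) (p : ℕ) : Fin 3 :=
  if p < R * (τ + 1) then (if (τ + 1) ∣ (p + 1) then 1 else 0) else 2

lemma wO_loc {m τ R : ℕ} (h : R * (τ + 1) ≤ m) : Loc m τ 0 (wO τ R) := by
  intro p _ hp
  by_cases h1 : p < R * (τ + 1)
  · by_cases h2 : (τ + 1) ∣ (p + 1)
    · have hw : wO τ R p = 1 := by
        unfold wO
        rw [if_pos h1, if_pos h2]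
      have := Nat.le_of_dvd (by omega) h2
      refine ⟨fun h => ?_, fun h => ?_, fun h => ?_, fun h => by omega⟩
      · rw [hw] at h; simp at h
      · rw [hw] at h; simp at h
      · rw [hw] at h; simp at h
    · have hw : wO τ R p = 0 := by
        unfold wO
        rw [if_pos h1, if_neg h2]
      have h3 : p + 1 ≠ R * (τ + 1) := fun h3 => h2 (h3 ▸ Dvd.intro_left R rfl)
      refine ⟨fun _ => ⟨by omega, ?_⟩, fun _ _ => ?_, fun h => ?_, fun h => ?_⟩
      · unfold wO
        rw [if_pos (by omega)]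
        split_ifs <;> simp
      · unfold wO
        split_ifs with h3 h4
        · exfalso
          apply h2
          have h5 : p + 1 + τ + 1 = (p + 1) + (τ + 1) := by ring
          rw [h5] at h4
          exact (Nat.dvd_add_left (dvd_refl _)).1 h4
        · simp
        · simp
      · rw [hw] at h; simp at h
      · rw [hw] at h; simp at h
  · have hw : wO τ R p = 2 := by
      unfold wO
      rw [if_neg h1]
    refine ⟨fun h => ?_, fun h => ?_, fun _ _ => ?_, fun h => ?_⟩
    · rw [hw] at h; simp at h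
    · rw [hw] at h; simp at h
    · unfold wO
      rw [if_neg (by omega)]
      simp
    · rw [hw] at h; simp at h

lemma wO_count {m τ R : ℕ} (h : R * (τ + 1) ≤ m) :
    Nat.count (fun p => wO τ R p = 0) m = R * τ ∧
      Nat.count (fun p => wO τ R p = 2) m = m - R * (τ + 1) := by
  obtain ⟨k, rfl⟩ := Nat.exists_eq_add_of_le h
  have h1 : Nat.count (fun p => wO τ R p = 1) (R * (τ + 1) + k) = R := by
    rw [Nat.count_add]
    have h2 : Nat.count (fun p => wO τ R p = 1) (R * (τ + 1)) =
        Nat.count (fun k => (τ + 1) ∣ k + 1) (R * (τ + 1)) := by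
      apply count_congr_lt
      intro j hj
      unfold wO
      rw [if_pos hj]
      split_ifs with h3
      · simp [h3]
      · simp [h3]
    have h3 : Nat.count (fun k => wO τ R (R * (τ + 1) + k) = 1) k = 0 := by
      apply Nat.count_of_forall_not
      intro j _
      unfold wO
      rw [if_neg (by omega)]
      simp
    rw [h2, h3, count_dvd_succ _ _ (by omega), add_zero]
  have h2 : Nat.count (fun p => wO τ R p = 2) (R * (τ + 1) + k) = k := by
    rw [Nat.count_add]
    have h3 : Nat.count (fun p => wO τ R p = 2) (R * (τ + 1)) = 0 := by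
      apply Nat.count_of_forall_not
      intro j hj
      unfold wO
      rw [if_pos hj]
      split_ifs <;> simp
    have h4 : Nat.count (fun k => wO τ R (R * (τ + 1) + k) = 2) k = k := by
      apply Nat.count_of_forall
      intro j _
      unfold wO
      rw [if_neg (by omega)]
    rw [h3, h4, zero_add]
  have h3 := count_three (wO τ R) (R * (τ + 1) + k)
  rw [h1, h2] at h3
  have h4 : R * (τ + 1) = R * τ + R := by ring
  refine ⟨by omega, by omega⟩

lemma tot_other {m : ℕ} [NeZero m] {τ R n x z : ℕ} (hR : R * (τ + 1) ≤ m)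
    (ht : Tot ((τ + 1 : ℕ) : ZMod m) (τ : ZMod m) n x z) :
    Tot ((τ + 1 : ℕ) : ZMod m) (τ : ZMod m) (n + 1) (x + R * τ) (z + (m - R * (τ + 1))) := by
  obtain ⟨h1, h2⟩ := wO_count hR
  refine tot_succ ht (fun i => wO τ R i.val) ?_ ?_ ?_
  · intro u v huv
    exact loc_inj (wO_loc hR) u v (Nat.zero_le _) (Nat.zero_le _) huv
  · rw [card_word, h1]
  · rw [card_word, h2]

/-- The word `1 0^{τ-1} 1 1 (2^{τ-1} 1)^{b-1} 2^{τ-1-e} 0^e 1 (0^τ 1)^i 2^*`. -/
def wS (τ e b i : ℕ) (p : ℕ) : Fin 3 :=
  if p = 0 then 1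
  else if p < τ then 0
  else if p = τ then 1
  else if p ≤ (b + 1) * τ + 1 then
    (if τ ∣ (p - (τ + 1)) then 1 else if (b + 1) * τ + 1 ≤ p + e then 0 else 2)
  else if p ≤ (b + 1) * τ + 1 + i * (τ + 1) then
    (if (τ + 1) ∣ (p - ((b + 1) * τ + 1)) then 1 else 0)
  else 2

lemma wS_loc {m τ e b i : ℕ} (hτ : 1 ≤ τ) (he : e < τ)
    (hm : (b + 1) * τ + 2 + i * (τ + 1) ≤ m) : Loc m τ 1 (wS τ e b i) := by
  intro p hp0 hp
  have hP : τ ≤ (b + 1) * τ := Nat.le_mul_of_pos_left _ (by omega)
  -- the region of `p`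
  by_cases hA : p < τ
  · -- region A
    have hw : wS τ e b i p = 0 := by
      unfold wS
      rw [if_neg (by omega), if_pos hA]
    refine ⟨fun _ => ⟨by omega, ?_⟩, fun _ _ => ?_, fun h => ?_, fun h => ?_⟩
    · unfold wS
      rw [if_neg (by omega)]
      by_cases h1 : p + 1 < τ
      · rw [if_pos h1]; simp
      · rw [if_neg h1, if_pos (by omega)]; simp
    · unfold wS
      rw [if_neg (by omega), if_neg (by omega), if_neg (by omega)]
      have hnd : ¬ τ ∣ (p + 1 + τ - (τ + 1)) := by
        intro h1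
        have h2 : p + 1 + τ - (τ + 1) = p := by omega
        rw [h2] at h1
        have := Nat.le_of_dvd (by omega) h1
        omega
      by_cases h1 : p + 1 + τ ≤ (b + 1) * τ + 1
      · rw [if_pos h1, if_neg hnd]
        split_ifs <;> simp
      · rw [if_neg h1]
        by_cases h2 : p + 1 + τ ≤ (b + 1) * τ + 1 + i * (τ + 1)
        · rw [if_pos h2]
          have h3 : ¬ (τ + 1) ∣ (p + 1 + τ - ((b + 1) * τ + 1)) := by
            intro h3
            have := Nat.le_of_dvd (by omega) h3
            omega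
          rw [if_neg h3]
          simp
        · rw [if_neg h2]
          simp
    · rw [hw] at h; simp at h
    · rw [hw] at h; simp at h
  by_cases hB0 : p = τ
  · have hw : wS τ e b i p = 1 := by
      unfold wS
      rw [if_neg (by omega), if_neg hA, if_pos hB0]
    refine ⟨fun h => ?_, fun h => ?_, fun h => ?_, fun h => by omega⟩
    · rw [hw] at h; simp at h
    · rw [hw] at h; simp at h
    · rw [hw] at h; simp at h
  by_cases hB : p ≤ (b + 1) * τ + 1
  · by_cases hd : τ ∣ (p - (τ + 1))
    · have hw : wS τ e b i p = 1 := by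
        unfold wS
        rw [if_neg (by omega), if_neg hA, if_neg hB0, if_pos hB, if_pos hd]
      refine ⟨fun h => ?_, fun h => ?_, fun h => ?_, fun h => by omega⟩
      · rw [hw] at h; simp at h
      · rw [hw] at h; simp at h
      · rw [hw] at h; simp at h
    have hPd : τ ∣ ((b + 1) * τ + 1 - (τ + 1)) := by
      have : (b + 1) * τ + 1 - (τ + 1) = b * τ := by
        have : (b + 1) * τ = b * τ + τ := by ring
        omega
      rw [this]
      exact Dvd.intro_left b rfl
    have hpP : p ≠ (b + 1) * τ + 1 := fun h => hd (h ▸ hPd)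
    by_cases hB2 : (b + 1) * τ + 1 ≤ p + e
    · have hw : wS τ e b i p = 0 := by
        unfold wS
        rw [if_neg (by omega), if_neg hA, if_neg hB0, if_pos hB, if_neg hd, if_pos hB2]
      refine ⟨fun _ => ⟨by omega, ?_⟩, fun _ _ => ?_, fun h => ?_, fun h => ?_⟩
      · unfold wS
        rw [if_neg (by omega), if_neg (by omega), if_neg (by omega), if_pos (by omega)]
        by_cases h1 : τ ∣ (p + 1 - (τ + 1))
        · rw [if_pos h1]; simp
        · rw [if_neg h1, if_pos (by omega)]; simp
      · unfold wS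
        rw [if_neg (by omega), if_neg (by omega), if_neg (by omega), if_neg (by omega)]
        by_cases h2 : p + 1 + τ ≤ (b + 1) * τ + 1 + i * (τ + 1)
        · rw [if_pos h2]
          have h3 : ¬ (τ + 1) ∣ (p + 1 + τ - ((b + 1) * τ + 1)) := by
            intro h3
            have := Nat.le_of_dvd (by omega) h3
            omega
          rw [if_neg h3]
          simp
        · rw [if_neg h2]
          simp
      · rw [hw] at h; simp at h
      · rw [hw] at h; simp at h
    · have hw : wS τ e b i p = 2 := by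
        unfold wS
        rw [if_neg (by omega), if_neg hA, if_neg hB0, if_pos hB, if_neg hd, if_neg hB2]
      refine ⟨fun h => ?_, fun h => ?_, fun _ _ => ?_, fun h => ?_⟩
      · rw [hw] at h; simp at h
      · rw [hw] at h; simp at h
      · unfold wS
        rw [if_neg (by omega), if_neg (by omega), if_neg (by omega)]
        by_cases h1 : p + τ ≤ (b + 1) * τ + 1
        · rw [if_pos h1]
          have h3 : ¬ τ ∣ (p + τ - (τ + 1)) := by
            intro h3
            apply hd
            have h4 : p + τ - (τ + 1) = (p - (τ + 1)) + τ := by omega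
            rw [h4] at h3
            exact (Nat.dvd_add_left (dvd_refl _)).1 h3
          rw [if_neg h3]
          split_ifs <;> simp
        · rw [if_neg h1]
          by_cases h2 : p + τ ≤ (b + 1) * τ + 1 + i * (τ + 1)
          · rw [if_pos h2]
            have h3 : ¬ (τ + 1) ∣ (p + τ - ((b + 1) * τ + 1)) := by
              intro h3
              have := Nat.le_of_dvd (by omega) h3
              omega
            rw [if_neg h3]
            simp
          · rw [if_neg h2]
            simp
      · rw [hw] at h; simp at h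
  by_cases hC : p ≤ (b + 1) * τ + 1 + i * (τ + 1)
  · by_cases hd : (τ + 1) ∣ (p - ((b + 1) * τ + 1))
    · have hw : wS τ e b i p = 1 := by
        unfold wS
        rw [if_neg (by omega), if_neg hA, if_neg hB0, if_neg hB, if_pos hC, if_pos hd]
      refine ⟨fun h => ?_, fun h => ?_, fun h => ?_, fun h => by omega⟩
      · rw [hw] at h; simp at h
      · rw [hw] at h; simp at h
      · rw [hw] at h; simp at h
    · have hw : wS τ e b i p = 0 := by
        unfold wS
        rw [if_neg (by omega), if_neg hA, if_neg hB0, if_neg hB, if_pos hC, if_neg hd]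
      have hne : p ≠ (b + 1) * τ + 1 + i * (τ + 1) := by
        intro h
        apply hd
        rw [h, Nat.add_sub_cancel_left]
        exact Dvd.intro_left i rfl
      refine ⟨fun _ => ⟨by omega, ?_⟩, fun _ _ => ?_, fun h => ?_, fun h => ?_⟩
      · unfold wS
        rw [if_neg (by omega), if_neg (by omega), if_neg (by omega), if_neg (by omega),
          if_pos (by omega)]
        split_ifs <;> simp
      · unfold wS
        rw [if_neg (by omega), if_neg (by omega), if_neg (by omega), if_neg (by omega)]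
        by_cases h2 : p + 1 + τ ≤ (b + 1) * τ + 1 + i * (τ + 1)
        · rw [if_pos h2]
          have h3 : ¬ (τ + 1) ∣ (p + 1 + τ - ((b + 1) * τ + 1)) := by
            intro h3
            apply hd
            have h4 : p + 1 + τ - ((b + 1) * τ + 1) = (p - ((b + 1) * τ + 1)) + (τ + 1) := by
              omega
            rw [h4] at h3
            exact (Nat.dvd_add_left (dvd_refl _)).1 h3
          rw [if_neg h3]
          simp
        · rw [if_neg h2]
          simp
      · rw [hw] at h; simp at h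
      · rw [hw] at h; simp at h
  · have hw : wS τ e b i p = 2 := by
      unfold wS
      rw [if_neg (by omega), if_neg hA, if_neg hB0, if_neg hB, if_neg hC]
    refine ⟨fun h => ?_, fun h => ?_, fun _ _ => ?_, fun h => ?_⟩
    · rw [hw] at h; simp at h
    · rw [hw] at h; simp at h
    · unfold wS
      rw [if_neg (by omega), if_neg (by omega), if_neg (by omega), if_neg (by omega),
        if_neg (by omega)]
      simp
    · rw [hw] at h; simp at h

lemma wS_count {m τ e b i : ℕ} (hτ : 1 ≤ τ) (he : e < τ) (heb : e = 0 ∨ 1 ≤ b)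
    (hm : (b + 1) * τ + 2 + i * (τ + 1) ≤ m) :
    Nat.count (fun p => wS τ e b i p = 0) m = (τ - 1) + e + i * τ ∧
      Nat.count (fun p => wS τ e b i p = 1) m = b + 3 + i := by
  have hP : (b + 1) * τ = b * τ + τ := by ring
  obtain ⟨k, hk⟩ : ∃ k, m = (τ + 1) + ((b * τ + 1) + (i * (τ + 1) + k)) := by
    refine ⟨m - ((b + 1) * τ + 2 + i * (τ + 1)), ?_⟩
    omega
  -- the values of the word on the four segments
  have v1 : ∀ p, p < τ + 1 → wS τ e b i p = if p = 0 then 1 else if p < τ then 0 else 1 := by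
    intro p hp
    unfold wS
    by_cases h0 : p = 0
    · rw [if_pos h0, if_pos h0]
    · rw [if_neg h0, if_neg h0]
      by_cases h1 : p < τ
      · rw [if_pos h1, if_pos h1]
      · rw [if_neg h1, if_neg h1, if_pos (by omega)]
  have v2 : ∀ j, j < b * τ + 1 → wS τ e b i (τ + 1 + j) =
      if τ ∣ j then 1 else if b * τ ≤ j + e then 0 else 2 := by
    intro j hj
    unfold wS
    rw [if_neg (by omega), if_neg (by omega), if_neg (by omega), if_pos (by omega),
      Nat.add_sub_cancel_left]
    by_cases h1 : τ ∣ j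
    · rw [if_pos h1, if_pos h1]
    · rw [if_neg h1, if_neg h1]
      by_cases h2 : b * τ ≤ j + e
      · rw [if_pos h2, if_pos (by omega)]
      · rw [if_neg h2, if_neg (by omega)]
  have v3 : ∀ j, j < i * (τ + 1) → wS τ e b i (τ + 1 + (b * τ + 1 + j)) =
      if (τ + 1) ∣ (j + 1) then 1 else 0 := by
    intro j hj
    unfold wS
    rw [if_neg (by omega), if_neg (by omega), if_neg (by omega), if_neg (by omega),
      if_pos (by omega)]
    have h1 : τ + 1 + (b * τ + 1 + j) - ((b + 1) * τ + 1) = j + 1 := by omega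
    rw [h1]
  have v4 : ∀ j, wS τ e b i (τ + 1 + (b * τ + 1 + (i * (τ + 1) + j))) = 2 := by
    intro j
    unfold wS
    rw [if_neg (by omega), if_neg (by omega), if_neg (by omega), if_neg (by omega),
      if_neg (by omega)]
  have hs : ∀ t, Nat.count (fun p => wS τ e b i p = t) m =
      Nat.count (fun p => wS τ e b i p = t) (τ + 1) +
      (Nat.count (fun j => wS τ e b i (τ + 1 + j) = t) (b * τ + 1) +
      (Nat.count (fun j => wS τ e b i (τ + 1 + (b * τ + 1 + j)) = t) (i * (τ + 1)) +
      Nat.count (fun j => wS τ e b i (τ + 1 + (b * τ + 1 + (i * (τ + 1) + j))) = t) k)) := by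
    intro t
    rw [hk, Nat.count_add _ (τ + 1) _, Nat.count_add _ (b * τ + 1) _,
      Nat.count_add _ (i * (τ + 1)) _]
  -- type `1`
  have c3 : Nat.count (fun j => wS τ e b i (τ + 1 + (b * τ + 1 + j)) = 1) (i * (τ + 1)) = i := by
    refine Eq.trans (count_congr_lt ?_) (count_dvd_succ (τ + 1) i (by omega))
    intro j hj
    rw [v3 j hj]
    split_ifs with h1
    · simp [h1]
    · simp [h1]
  have d3 : Nat.count (fun j => wS τ e b i (τ + 1 + (b * τ + 1 + j)) = 0) (i * (τ + 1)) =
      i * τ := by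
    have h1 := count_three (fun j => wS τ e b i (τ + 1 + (b * τ + 1 + j))) (i * (τ + 1))
    rw [c3] at h1
    have h2 : Nat.count (fun j => wS τ e b i (τ + 1 + (b * τ + 1 + j)) = 2) (i * (τ + 1)) = 0 := by
      apply Nat.count_of_forall_not
      intro j hj
      rw [v3 j hj]
      split_ifs <;> simp
    have h3 : i * (τ + 1) = i * τ + i := by ring
    omega
  have c1 : Nat.count (fun p => wS τ e b i p = 1) (τ + 1) = 2 := by
    have hτ1 : wS τ e b i τ = 1 := by
      rw [v1 τ (by omega), if_neg (by omega), if_neg (by omega)]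
    have h01 : wS τ e b i 0 = 1 := by
      rw [v1 0 (by omega), if_pos rfl]
    rw [Nat.count_succ, if_pos hτ1]
    obtain ⟨σ, hσ⟩ : ∃ σ, τ = σ + 1 := ⟨τ - 1, by omega⟩
    have h2 : Nat.count (fun p => wS τ e b i p = 1) (σ + 1) = 1 := by
      rw [Nat.count_succ', if_pos h01, Nat.count_of_forall_not]
      intro p hp
      rw [v1 (p + 1) (by omega), if_neg (by omega), if_pos (by omega)]
      simp
    rw [← hσ] at h2
    rw [h2]
  have d1 : Nat.count (fun p => wS τ e b i p = 0) (τ + 1) = τ - 1 := by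
    have h1 := count_three (wS τ e b i) (τ + 1)
    have h2 : Nat.count (fun p => wS τ e b i p = 2) (τ + 1) = 0 := by
      apply Nat.count_of_forall_not
      intro j hj
      rw [v1 j hj]
      split_ifs <;> simp
    omega
  have c2 : Nat.count (fun j => wS τ e b i (τ + 1 + j) = 1) (b * τ + 1) = b + 1 := by
    have h1 : Nat.count (fun j => wS τ e b i (τ + 1 + j) = 1) (b * τ + 1) =
        Nat.count (fun j => τ ∣ j) (b * τ + 1) := by
      apply count_congr_lt
      intro j hj
      rw [v2 j hj]
      split_ifs with h1 h2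
      · simp [h1]
      · simp [h1]
      · simp [h1]
    rw [h1, Nat.count_succ', count_dvd_succ τ b (by omega)]
    simp
  have d2 : Nat.count (fun j => wS τ e b i (τ + 1 + j) = 0) (b * τ + 1) = e := by
    rcases Nat.eq_zero_or_pos b with hb | hb
    · have he0 : e = 0 := by omega
      subst hb he0
      simp only [zero_mul, zero_add]
      rw [Nat.count_succ, Nat.count_zero, v2 0 (by omega)]
      simp
    · have hbτ : τ ≤ b * τ := Nat.le_mul_of_pos_left _ hb
      obtain ⟨c, hc⟩ : ∃ c, b * τ = c + e := ⟨b * τ - e, by omega⟩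
      rw [Nat.count_succ, v2 _ (by omega), if_pos (Dvd.intro_left b rfl)]
      rw [hc, Nat.count_add]
      have h1 : Nat.count (fun j => wS τ e b i (τ + 1 + j) = 0) c = 0 := by
        apply Nat.count_of_forall_not
        intro j hj
        rw [v2 j (by omega), if_neg (show ¬ b * τ ≤ j + e by omega)]
        split_ifs <;> simp
      have h2 : Nat.count (fun j => wS τ e b i (τ + 1 + (c + j)) = 0) e = e := by
        apply Nat.count_of_forall
        intro j hj
        rw [v2 (c + j) (by omega)]
        have h3 : ¬ τ ∣ (c + j) := by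
          intro h3
          have h4 : τ ∣ (b * τ - (c + j)) := Nat.dvd_sub (Dvd.intro_left b rfl) h3
          have := Nat.le_of_dvd (by omega) h4
          omega
        rw [if_neg h3, if_pos (by omega)]
      rw [h1, h2]
      simp
  have c4 : Nat.count (fun j => wS τ e b i (τ + 1 + (b * τ + 1 + (i * (τ + 1) + j))) = 1) k =
      0 := by
    apply Nat.count_of_forall_not
    intro j _
    rw [v4]
    simp
  have d4 : Nat.count (fun j => wS τ e b i (τ + 1 + (b * τ + 1 + (i * (τ + 1) + j))) = 0) k =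
      0 := by
    apply Nat.count_of_forall_not
    intro j _
    rw [v4]
    simp
  rw [hs, hs, c1, c2, c3, c4, d1, d2, d3, d4]
  constructor <;> omega

lemma tot_special {m : ℕ} [NeZero m] {τ e b i x z : ℕ} (hτ : 1 ≤ τ) (he : e < τ)
    (heb : e = 0 ∨ 1 ≤ b) (hm : (b + 1) * τ + 2 + i * (τ + 1) ≤ m)
    (hx : x + 1 = (i + 1) * τ + e) (hz : x + z + b + i + 3 = m) :
    Tot ((τ + 1 : ℕ) : ZMod m) (τ : ZMod m) 0 x z := by
  obtain ⟨h1, h2⟩ := wS_count hτ he heb hm
  have h3 := count_three (wS τ e b i) m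
  have h4 : (i + 1) * τ = i * τ + τ := by ring
  have hP : τ ≤ (b + 1) * τ := Nat.le_mul_of_pos_left _ (by omega)
  have hPd : (b + 1) * τ = b * τ + τ := by ring
  refine tot_zero (fun u => wS τ e b i u.val) ⟨?_, ?_, ?_, ?_⟩ ?_ ?_
  · simp [wS]
  · simp only
    rw [ZMod.val_natCast_of_lt (by omega)]
    unfold wS
    rw [if_neg (by omega), if_neg (by omega), if_neg (by omega), if_pos (by omega)]
    simp
  · simp only
    rw [ZMod.val_natCast_of_lt (by omega)]
    unfold wS
    rw [if_neg (by omega), if_neg (by omega), if_pos rfl]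
  · intro u v hu hv huv
    refine loc_inj (wS_loc hτ he hm) u v ?_ ?_ huv
    · have : u.val ≠ 0 := fun h => hu ((ZMod.val_eq_zero u).1 h)
      omega
    · have : v.val ≠ 0 := fun h => hv ((ZMod.val_eq_zero v).1 h)
      omega
  · rw [card_word, h1]
    omega
  · rw [card_word]
    omega

/-! ### The zigzag pattern, for one coset -/

/-- A criterion for injectivity of the label map. -/
lemma inj_of_nat {m : ℕ} [NeZero m] {a c : ZMod m} {w : ℕ → Fin 3} (s : ℕ) (ψ : ℕ → ℕ)
    (D : ℕ → Prop) (h1 : ∀ p, D p → p < m → ψ p < m)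
    (h2 : ∀ u : ZMod m, D u.val → ph a c (fun i => w i.val) u + (s : ZMod m) = (ψ u.val : ZMod m))
    (h3 : ∀ p q, D p → D q → p < m → q < m → ψ p = ψ q → p = q) (u v : ZMod m)
    (hu : D u.val) (hv : D v.val)
    (huv : ph a c (fun i => w i.val) u = ph a c (fun i => w i.val) v) : u = v := by
  apply ZMod.val_injective m
  have hum : u.val < m := ZMod.val_lt u
  have hvm : v.val < m := ZMod.val_lt v
  apply h3 _ _ hu hv hum hvm
  have h4 : (ψ u.val : ZMod m) = (ψ v.val : ZMod m) := by
    rw [← h2 u hu, ← h2 v hv, huv]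
  have h5 := (ZMod.natCast_eq_natCast_iff' _ _ m).1 h4
  rwa [Nat.mod_eq_of_lt (h1 _ hu hum), Nat.mod_eq_of_lt (h1 _ hv hvm)] at h5

/-- The zigzag word. -/
def wZ (m x z : ℕ) (p : ℕ) : Fin 3 :=
  if p = 0 then 1 else if p ≤ z then 2 else if p < m - x then 1 else 0

lemma wZ_count {m x z : ℕ} (hm : x + z + 3 ≤ m) :
    Nat.count (fun p => wZ m x z p = 0) m = x ∧ Nat.count (fun p => wZ m x z p = 2) m = z := by
  obtain ⟨k, rfl⟩ : ∃ k, m = (z + 1) + ((k + 2) + x) := ⟨m - (x + z + 3), by omega⟩
  have v0 : wZ (z + 1 + (k + 2 + x)) x z 0 = 1 := by simp [wZ]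
  have v1 : ∀ p < z, wZ (z + 1 + (k + 2 + x)) x z (p + 1) = 2 := by
    intro p hp
    unfold wZ
    rw [if_neg (by omega), if_pos (by omega)]
  have v2 : ∀ p < k + 2, wZ (z + 1 + (k + 2 + x)) x z (z + 1 + p) = 1 := by
    intro p hp
    unfold wZ
    rw [if_neg (by omega), if_neg (by omega), if_pos (by omega)]
  have v3 : ∀ p < x, wZ (z + 1 + (k + 2 + x)) x z (z + 1 + (k + 2 + p)) = 0 := by
    intro p hp
    unfold wZ
    rw [if_neg (by omega), if_neg (by omega), if_neg (by omega)]
  have hs : ∀ t, Nat.count (fun p => wZ (z + 1 + (k + 2 + x)) x z p = t) (z + 1 + (k + 2 + x)) =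
      Nat.count (fun p => wZ (z + 1 + (k + 2 + x)) x z p = t) (z + 1) +
      (Nat.count (fun p => wZ (z + 1 + (k + 2 + x)) x z (z + 1 + p) = t) (k + 2) +
      Nat.count (fun p => wZ (z + 1 + (k + 2 + x)) x z (z + 1 + (k + 2 + p)) = t) x) := by
    intro t
    rw [Nat.count_add _ (z + 1) _, Nat.count_add _ (k + 2) _]
  constructor
  · rw [hs, Nat.count_succ', v0, Nat.count_of_forall_not, Nat.count_of_forall_not,
      Nat.count_of_forall]
    · simp
    · exact v3
    · intro p hp
      rw [v2 p hp]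
      simp
    · intro p hp
      rw [v1 p hp]
      simp
  · rw [hs, Nat.count_succ', v0, Nat.count_of_forall, Nat.count_of_forall_not,
      Nat.count_of_forall_not]
    · simp
    · intro p hp
      rw [v3 p hp]
      simp
    · intro p hp
      rw [v2 p hp]
      simp
    · exact v1

lemma tot_zigzag {m : ℕ} [NeZero m] {x z : ℕ} (hm : x + z + 3 ≤ m) :
    Tot ((z + 1 : ℕ) : ZMod m) ((m - 1 - x : ℕ) : ZMod m) 0 x z := by
  obtain ⟨h1, h2⟩ := wZ_count hm
  refine tot_zero (fun u => wZ m x z u.val) ⟨?_, ?_, ?_, ?_⟩ ?_ ?_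
  · simp [wZ]
  · simp only
    rw [ZMod.val_natCast_of_lt (by omega)]
    unfold wZ
    rw [if_neg (by omega), if_neg (by omega), if_pos (by omega)]
  · simp only
    rw [ZMod.val_natCast_of_lt (by omega)]
    unfold wZ
    rw [if_neg (by omega), if_neg (by omega), if_pos (by omega)]
  · intro u v hu hv huv
    refine inj_of_nat x (fun p => if p ≤ z then p - 1 else if p < m - x then p + x else
      p + z + 1 + x - m) (fun p => p ≠ 0) ?_ ?_ ?_ u v
      (fun h => hu ((ZMod.val_eq_zero u).1 h)) (fun h => hv ((ZMod.val_eq_zero v).1 h)) huv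
    · intro p hp hpm
      split_ifs <;> omega
    · intro u hu
      have hum : u.val < m := ZMod.val_lt u
      have hcast : ((u.val : ℕ) : ZMod m) = u := ZMod.natCast_zmod_val u
      have hmm : ((m : ℕ) : ZMod m) = 0 := ZMod.natCast_self m
      by_cases c1 : u.val ≤ z
      · have hw : wZ m x z u.val = 2 := by
          unfold wZ
          rw [if_neg hu, if_pos c1]
        simp only [ph, sh, hw, if_pos c1]
        have h3 : u.val + (m - 1 - x) + x = (u.val - 1) + m := by omega
        have h4 := congrArg (Nat.cast : ℕ → ZMod m) h3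
        push_cast at h4
        rw [hcast, hmm, add_zero] at h4
        simpa using h4
      · by_cases c2 : u.val < m - x
        · have hw : wZ m x z u.val = 1 := by
            unfold wZ
            rw [if_neg hu, if_neg c1, if_pos c2]
          simp only [ph, sh, hw, if_neg c1, if_pos c2]
          push_cast
          rw [hcast]
          simp
        · have hw : wZ m x z u.val = 0 := by
            unfold wZ
            rw [if_neg hu, if_neg c1, if_neg c2]
          simp only [ph, sh, hw, if_neg c1, if_neg c2]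
          have h3 : u.val + (z + 1) + x = (u.val + z + 1 + x - m) + m := by omega
          have h4 := congrArg (Nat.cast : ℕ → ZMod m) h3
          rw [Nat.cast_add, Nat.cast_add, Nat.cast_add, hcast, Nat.cast_add _ m, hmm,
            add_zero] at h4
          simpa using h4
    · intro p q hp hq hpm hqm hpq
      split_ifs at hpq <;> omega
  · rw [card_word, h1]
  · rw [card_word, h2]

/-! ### The pattern of `2`-cycles -/

/-- The word `1^l (0 2)^N 1^*`. -/
def wT (l N : ℕ) (p : ℕ) : Fin 3 :=
  if l ≤ p ∧ p < l + 2 * N then (if (p - l) % 2 = 0 then 0 else 2) else 1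

lemma wT_count {m l N : ℕ} (hm : l + 2 * N ≤ m) :
    Nat.count (fun p => wT l N p = 0) m = N ∧ Nat.count (fun p => wT l N p = 2) m = N := by
  obtain ⟨k, rfl⟩ := Nat.exists_eq_add_of_le hm
  have v1 : ∀ p < l, wT l N p = 1 := by
    intro p hp
    unfold wT
    rw [if_neg (by omega)]
  have v2 : ∀ p < 2 * N, wT l N (l + p) = if p % 2 = 0 then 0 else 2 := by
    intro p hp
    unfold wT
    rw [if_pos (by omega), Nat.add_sub_cancel_left]
  have v3 : ∀ p, wT l N (l + 2 * N + p) = 1 := by
    intro p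
    unfold wT
    rw [if_neg (by omega)]
  have v4 : ∀ M ≤ N, Nat.count (fun p => wT l N (l + p) = 0) (2 * M) = M ∧
      Nat.count (fun p => wT l N (l + p) = 2) (2 * M) = M := by
    intro M
    induction M with
    | zero => intro _; simp
    | succ M ih =>
      intro hM
      obtain ⟨i1, i2⟩ := ih (by omega)
      have e1 : wT l N (l + 2 * M) = 0 := by rw [v2 _ (by omega), if_pos (by omega)]
      have e2 : wT l N (l + (2 * M + 1)) = 2 := by rw [v2 _ (by omega), if_neg (by omega)]
      have e3 : 2 * (M + 1) = 2 * M + 1 + 1 := by ring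
      rw [e3, Nat.count_succ, Nat.count_succ, Nat.count_succ, Nat.count_succ, e1, e2, i1, i2]
      simp
  have hs : ∀ t, Nat.count (fun p => wT l N p = t) (l + 2 * N + k) =
      Nat.count (fun p => wT l N p = t) l + Nat.count (fun p => wT l N (l + p) = t) (2 * N) +
      Nat.count (fun p => wT l N (l + 2 * N + p) = t) k := by
    intro t
    rw [Nat.count_add _ (l + 2 * N) _, Nat.count_add _ l _]
  obtain ⟨i1, i2⟩ := v4 N le_rfl
  constructor
  · rw [hs, i1, Nat.count_of_forall_not, Nat.count_of_forall_not]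
    · simp
    · intro p _
      rw [v3]
      simp
    · intro p hp
      rw [v1 p hp]
      simp
  · rw [hs, i2, Nat.count_of_forall_not, Nat.count_of_forall_not]
    · simp
    · intro p _
      rw [v3]
      simp
    · intro p hp
      rw [v1 p hp]
      simp

lemma wT_inj {m l N : ℕ} [NeZero m] (hl : l % 2 = 0) (hm : l + 2 * N ≤ m) :
    PatO ((1 : ℕ) : ZMod m) ((m - 1 : ℕ) : ZMod m) (fun u => wT l N u.val) := by
  have hm0 : 0 < m := Nat.pos_of_ne_zero (NeZero.ne m)
  intro u v huv
  refine inj_of_nat 0 (fun p => if l ≤ p ∧ p < l + 2 * N then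
    (if (p - l) % 2 = 0 then p + 1 else p - 1) else p) (fun _ => True) ?_ ?_ ?_ u v trivial
    trivial huv
  · intro p _ hpm
    split_ifs <;> omega
  · intro u _
    have hum : u.val < m := ZMod.val_lt u
    have hcast : ((u.val : ℕ) : ZMod m) = u := ZMod.natCast_zmod_val u
    have hmm : ((m : ℕ) : ZMod m) = 0 := ZMod.natCast_self m
    by_cases c1 : l ≤ u.val ∧ u.val < l + 2 * N
    · by_cases c2 : (u.val - l) % 2 = 0
      · have hw : wT l N u.val = 0 := by
          unfold wT
          rw [if_pos c1, if_pos c2]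
        simp only [ph, sh, hw, if_pos c1, if_pos c2]
        push_cast
        rw [hcast]
        simp
      · have hw : wT l N u.val = 2 := by
          unfold wT
          rw [if_pos c1, if_neg c2]
        simp only [ph, sh, hw, if_pos c1, if_neg c2]
        have h3 : u.val + (m - 1) = (u.val - 1) + m := by omega
        have h4 := congrArg (Nat.cast : ℕ → ZMod m) h3
        rw [Nat.cast_add, hcast, Nat.cast_add _ m, hmm, add_zero] at h4
        simpa using h4
    · have hw : wT l N u.val = 1 := by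
        unfold wT
        rw [if_neg c1]
      simp only [ph, sh, hw, if_neg c1]
      rw [hcast]
      simp
  · intro p q _ _ hpm hqm hpq
    split_ifs at hpq <;> omega

lemma tot_two {m : ℕ} [NeZero m] {N : ℕ} (hm : 5 ≤ m) (hN : N ≤ m - 2) :
    Tot ((1 : ℕ) : ZMod m) ((m - 1 : ℕ) : ZMod m) 1 N N := by
  obtain ⟨i, R, hiR, hi, hR⟩ : ∃ i R, i + R = N ∧ 2 * i + 3 ≤ m ∧ 2 * R ≤ m := by
    rcases Nat.le_total N (m / 2) with h | h
    · exact ⟨0, N, by omega, by omega, by omega⟩
    · exact ⟨N - m / 2, m / 2, by omega, by omega, by omega⟩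
  obtain ⟨c1, c2⟩ := wT_count (m := m) (l := 2) (N := i) (by omega)
  obtain ⟨c3, c4⟩ := wT_count (m := m) (l := 0) (N := R) (by omega)
  have h1 : Tot ((1 : ℕ) : ZMod m) ((m - 1 : ℕ) : ZMod m) 0 i i := by
    refine tot_zero (fun u => wT 2 i u.val) ⟨?_, ?_, ?_, ?_⟩ ?_ ?_
    · simp [wT]
    · simp only
      rw [ZMod.val_natCast_of_lt (by omega)]
      simp [wT]
    · simp only
      rw [ZMod.val_natCast_of_lt (by omega)]
      unfold wT
      rw [if_neg (by omega)]
    · intro u v _ _ huv
      exact wT_inj (by norm_num) (by omega) huv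
    · rw [card_word, c1]
    · rw [card_word, c2]
  have h2 := tot_succ h1 (fun u => wT 0 R u.val) (wT_inj (by norm_num) (by omega))
    (by rw [card_word, c3]) (by rw [card_word, c4])
  rw [hiR] at h2
  exact h2

/-! ### The case without hairs at the first spine vertex -/

/-- The word `1 1 2^{m-2}`. -/
def wF (p : ℕ) : Fin 3 := if p < 2 then 1 else 2

lemma data_zero {m : ℕ} [NeZero m] (hm : AddMonoid.exponent A = m) (hm5 : 5 ≤ m) {r : ℕ}
    (hr : (r + 2) * m ≤ Fintype.card A) : Data A 0 ((m - 2) + m * r) := by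
  obtain ⟨n, E, ι, hE, hE0, hinj, hcard⟩ := exists_coords m hm
  have hn : r + 1 ≤ n := by
    have h1 : (r + 2) * m ≤ (n + 1) * m := by rw [hcard]; exact hr
    have := Nat.le_of_mul_le_mul_right h1 (by omega)
    omega
  have h1n : (1 : Fin (n + 1)) ≠ 0 := by
    intro h
    have := congrArg Fin.val h
    rw [Fin.val_one', Nat.mod_eq_of_lt (by omega)] at this
    simp at this
  have h1v : ((1 : Fin (n + 1)) : ℕ) = 1 := by
    rw [Fin.val_one', Nat.mod_eq_of_lt (by omega)]
  let ty : Fin (n + 1) → ZMod m → Fin 3 := fun j i =>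
    if j = 0 then wF i.val else if (j : ℕ) ≤ n - r then 1 else 2
  have hι : ∀ t, ι t = E (0, t) := fun t => by
    have := hE 0 0 t
    rw [zero_add, hE0, zero_add] at this
    exact this.symm
  have hsymm : ∀ t, E.symm (ι t) = (0, t) := fun t => by rw [hι, Equiv.symm_apply_apply]
  have hsymm0 : E.symm 0 = (0, 0) := by rw [← hE0, Equiv.symm_apply_apply]
  have hone : (1 : ZMod m).val = 1 := by
    have : ((1 : ℕ) : ZMod m).val = 1 := ZMod.val_natCast_of_lt (by omega)
    simpa using this
  have hty0 : ∀ j i, ty j i ≠ 0 := by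
    intro j i
    simp only [ty, wF]
    split_ifs <;> simp
  have hph : ∀ u, ph (E (1, 0)) (ι 1) (fun u => ty (E.symm u).1 (E.symm u).2) u =
      ph (ι 0) (ι 1) (fun u => ty (E.symm u).1 (E.symm u).2) u := by
    intro u
    simp only [ph, sh, if_neg (hty0 _ _)]
  have hO : ∀ t : Fin 3, t ≠ 0 → Function.Injective (fun i : ZMod m => i + sh 0 1 t) := by
    intro t _ i j hij
    exact add_right_cancel hij
  refine ⟨E (1, 0), ι 1, fun u => ty (E.symm u).1 (E.symm u).2, ?_, ?_, ?_, ?_, ?_, ?_, ?_, ?_, ?_⟩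
  · intro h
    rw [← hE0] at h
    have := E.injective h
    simp only [Prod.mk.injEq] at this
    exact h1n this.1
  · intro h
    have h2 := hinj (h.trans (map_zero ι).symm)
    have h3 := congrArg ZMod.val h2
    rw [hone, ZMod.val_zero] at h3
    omega
  · intro h
    rw [hι] at h
    have := E.injective h
    simp only [Prod.mk.injEq] at this
    exact h1n this.1
  · simp [hsymm0, ty, wF]
  · simp only [Equiv.symm_apply_apply, ty, if_neg h1n]
    rw [if_pos (by rw [h1v]; omega)]
  · simp only [hsymm, ty, if_true, wF, hone]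
    simp
  · intro u v hu hv huv
    rw [hph, hph] at huv
    obtain ⟨⟨j, i⟩, rfl⟩ := E.surjective u
    obtain ⟨⟨j', i'⟩, rfl⟩ := E.surjective v
    rw [ph_coords hE, ph_coords hE] at huv
    have h3 := E.injective huv
    simp only [Prod.mk.injEq] at h3
    obtain ⟨rfl, h4⟩ := h3
    by_cases hj : j = 0
    · subst hj
      have hi : i ≠ 0 := by rintro rfl; exact hu hE0
      have hi' : i' ≠ 0 := by rintro rfl; exact hv hE0
      have h5 : i = i' := by
        refine inj_of_nat (a := 0) (c := 1) (w := wF) 0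
          (fun p => if p < 2 then p else if p + 1 = m then 0 else p + 1)
          (fun p => p ≠ 0) ?_ ?_ ?_ i i'
          (fun h => hi ((ZMod.val_eq_zero _).1 h)) (fun h => hi' ((ZMod.val_eq_zero _).1 h)) ?_
        · intro p hp hpm
          split_ifs <;> omega
        · intro u hu
          have hum : u.val < m := ZMod.val_lt u
          have hcast : ((u.val : ℕ) : ZMod m) = u := ZMod.natCast_zmod_val u
          have hmm : ((m : ℕ) : ZMod m) = 0 := ZMod.natCast_self m
          by_cases c1 : u.val < 2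
          · simp only [ph, sh, wF, if_pos c1, hcast]
            simp
          · by_cases c2 : u.val + 1 = m
            · simp only [ph, sh, wF, if_neg c1, if_pos c2]
              have h4 := congrArg (Nat.cast : ℕ → ZMod m) c2
              rw [Nat.cast_add, hcast, hmm] at h4
              simpa using h4
            · simp only [ph, sh, wF, if_neg c1, if_neg c2]
              push_cast
              rw [hcast]
              simp
        · intro p q hp hq hpm hqm hpq
          split_ifs at hpq <;> omega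
        · simpa [ph, ty] using h4
      rw [h5]
    · have h5 : i = i' := by
        simp only [ph, ty, if_neg hj] at h4
        exact add_right_cancel h4
      rw [h5]
  · rw [card_coords E ty 0]
    apply Finset.sum_eq_zero
    intro j _
    have : IsEmpty {i // ty j i = 0} := ⟨fun x => hty0 _ _ x.2⟩
    exact Nat.card_of_isEmpty
  · rw [card_coords E ty 2, Fin.sum_univ_succ]
    have e1 : Nat.card {i // ty 0 i = 2} = m - 2 := by
      have e2 : Nat.card {i : ZMod m // wF i.val = 2} = m - 2 := by
        rw [card_word]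
        obtain ⟨k, rfl⟩ : ∃ k, m = 2 + k := ⟨m - 2, by omega⟩
        rw [Nat.count_add _ 2 _, Nat.count_of_forall_not, Nat.count_of_forall]
        · omega
        · intro p _
          unfold wF
          rw [if_neg (by omega)]
        · intro p hp
          unfold wF
          rw [if_pos hp]
          simp
      rw [← e2]
      simp only [ty, if_true]
    have e3 : ∀ j : Fin n, Nat.card {i // ty j.succ i = 2} =
        if n - r < (j : ℕ) + 1 then m else 0 := by
      intro j
      simp only [ty, if_neg (Fin.succ_ne_zero j), Fin.val_succ]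
      by_cases h : (j : ℕ) + 1 ≤ n - r
      · rw [if_pos h, if_neg (by omega)]
        simp
      · rw [if_neg h, if_pos (by omega)]
        simp
    rw [e1]
    congr 1
    rw [Finset.sum_congr rfl fun j _ => e3 j, ← Finset.sum_filter, Finset.sum_const, smul_eq_mul,
      mul_comm]
    congr 1
    have e4 : (({j : Fin n | n - r < (j : ℕ) + 1} : Finset (Fin n))).card = r := by
      obtain ⟨k, hk⟩ : ∃ k, n = k + r := ⟨n - r, by omega⟩
      subst hk
      have e5 : ({j : Fin (k + r) | k + r - r < (j : ℕ) + 1} : Finset (Fin (k + r))) =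
          Finset.univ.map ⟨Fin.natAdd k, Fin.natAdd_injective r k⟩ := by
        ext j
        simp only [mem_filter, mem_univ, true_and, mem_map, Function.Embedding.coeFn_mk]
        constructor
        · intro h
          refine ⟨⟨(j : ℕ) - k, by have := j.2; omega⟩, Fin.ext ?_⟩
          simp only [Fin.val_natAdd]
          omega
        · rintro ⟨i, rfl⟩
          simp only [Fin.val_natAdd]
          omega
      rw [e5, card_map, card_univ, Fintype.card_fin]
    exact e4

/-! ### Arithmetic -/

lemma cast_ne {m x y : ℕ} [NeZero m] (hx : x < m) (hy : y < m) (hxy : x ≠ y) :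
    (x : ZMod m) ≠ (y : ZMod m) := by
  intro h
  have h5 := (ZMod.natCast_eq_natCast_iff' _ _ m).1 h
  rw [Nat.mod_eq_of_lt hx, Nat.mod_eq_of_lt hy] at h5
  exact hxy h5

/-- `x`, `z` are reached on `n + 1` cosets for some admissible `a`, `c`. -/
def Good (m : ℕ) [NeZero m] (n x z : ℕ) : Prop :=
  ∃ a c : ZMod m, a ≠ 0 ∧ c ≠ 0 ∧ a ≠ c ∧ Tot a c n x z

lemma good_of_tau {m : ℕ} [NeZero m] {τ n x z : ℕ} (hτ : 1 ≤ τ) (hm : τ + 1 < m)
    (h : Tot ((τ + 1 : ℕ) : ZMod m) (τ : ZMod m) n x z) : Good m n x z := by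
  refine ⟨_, _, ?_, ?_, ?_, h⟩
  · have := cast_ne (m := m) (x := τ + 1) (y := 0) hm (by omega) (by omega)
    rwa [Nat.cast_zero] at this
  · have := cast_ne (m := m) (x := τ) (y := 0) (by omega) (by omega) (by omega)
    rwa [Nat.cast_zero] at this
  · exact cast_ne hm (by omega) (by omega)

lemma good_zigzag {m : ℕ} [NeZero m] {x z : ℕ} (hm : x + z + 3 ≤ m) : Good m 0 x z := by
  refine ⟨_, _, ?_, ?_, ?_, tot_zigzag hm⟩
  · have := cast_ne (m := m) (x := z + 1) (y := 0) (by omega) (by omega) (by omega)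
    rwa [Nat.cast_zero] at this
  · have := cast_ne (m := m) (x := m - 1 - x) (y := 0) (by omega) (by omega) (by omega)
    rwa [Nat.cast_zero] at this
  · exact cast_ne (by omega) (by omega) (by omega)

lemma good_two {m : ℕ} [NeZero m] {N : ℕ} (hm : 5 ≤ m) (hN : N ≤ m - 2) : Good m 1 N N := by
  refine ⟨_, _, ?_, ?_, ?_, tot_two hm hN⟩
  · have := cast_ne (m := m) (x := 1) (y := 0) (by omega) (by omega) (by omega)
    rwa [Nat.cast_zero] at this
  · have := cast_ne (m := m) (x := m - 1) (y := 0) (by omega) (by omega) (by omega)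
    rwa [Nat.cast_zero] at this
  · exact cast_ne (by omega) (by omega) (by omega)

lemma good_family {m : ℕ} [NeZero m] {τ I e b x z : ℕ} (hτ : 1 ≤ τ) (he : e < τ)
    (heb : e = 0 ∨ 1 ≤ b) (hP : (b + 1) * τ + 2 ≤ m) (hx : x + 1 = (I + 1) * τ + e)
    (hz : x + z + b + I + 3 = 2 * m) (hc : b * τ + m % (τ + 1) ≤ z + b + e) :
    Good m 1 x z := by
  have hQ := Nat.div_add_mod m (τ + 1)
  have hP' : (b + 1) * τ = b * τ + τ := by ring
  obtain ⟨i, R, hI, hR, hi⟩ : ∃ i R, i + R = I ∧ R * (τ + 1) ≤ m ∧
      (b + 1) * τ + 2 + i * (τ + 1) ≤ m := by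
    rcases Nat.le_total I (m / (τ + 1)) with h | h
    · refine ⟨0, I, by omega, ?_, by omega⟩
      calc I * (τ + 1) ≤ m / (τ + 1) * (τ + 1) := Nat.mul_le_mul_right _ h
        _ ≤ m := Nat.div_mul_le_self _ _
    · refine ⟨I - m / (τ + 1), m / (τ + 1), by omega, Nat.div_mul_le_self _ _, ?_⟩
      obtain ⟨i, rfl⟩ := Nat.exists_eq_add_of_le h
      rw [Nat.add_sub_cancel_left]
      generalize m / (τ + 1) = Q at *
      have h1 : (Q + i + 1) * τ = Q * τ + i * τ + τ := by ring
      have h2 : (τ + 1) * Q = Q * τ + Q := by ring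
      have h3 : i * (τ + 1) = i * τ + i := by ring
      omega
  have hI' : (I + 1) * τ = (i + 1) * τ + R * τ := by rw [← hI]; ring
  have hi1 : (i + 1) * τ = i * τ + τ := by ring
  have hi2 : i * (τ + 1) = i * τ + i := by ring
  have hR2 : R * (τ + 1) = R * τ + R := by ring
  have hbτ : b ≤ b * τ := Nat.le_mul_of_pos_right _ (by omega)
  have heb' : e ≤ b * τ := by
    rcases heb with h | h
    · omega
    · have : τ ≤ b * τ := Nat.le_mul_of_pos_left _ (by omega)
      omega
  have hbe : b + e ≤ b * τ := by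
    rcases heb with h | h
    · omega
    · obtain ⟨b', rfl⟩ : ∃ b', b = b' + 1 := ⟨b - 1, by omega⟩
      have h1 : (b' + 1) * τ = b' * τ + τ := by ring
      have h2 : b' ≤ b' * τ := Nat.le_mul_of_pos_right _ (by omega)
      omega
  have h1 := tot_special (m := m) (τ := τ) (e := e) (b := b) (i := i)
    (x := (i + 1) * τ + e - 1) (z := m - (b + i + 3) - ((i + 1) * τ + e - 1)) hτ he heb hi
    (by omega) (by omega)
  have h2 := tot_other hR h1
  apply good_of_tau hτ (by omega)
  convert h2 using 1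
  · omega
  · omega

lemma good_three {m : ℕ} [NeZero m] {b N : ℕ} (hb : b + 3 ≤ m) (hN : N ≤ m - 1) :
    Good m 2 N (3 * m - 3 - b - 2 * N) := by
  obtain ⟨R, S, hRS, hR, hS⟩ : ∃ R S, R + S = N ∧ 2 * R ≤ m ∧ 2 * S ≤ m := by
    rcases Nat.le_total N (m / 2) with h | h
    · exact ⟨0, N, by omega, by omega, by omega⟩
    · exact ⟨N - m / 2, m / 2, by omega, by omega, by omega⟩
  have h1 := tot_special (m := m) (τ := 1) (e := 0) (b := b) (i := 0)
    (x := 0) (z := m - (b + 3)) le_rfl (by omega) (Or.inl rfl) (by omega)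
    (by omega) (by omega)
  have h2 := tot_other (R := R) (by omega) h1
  have h3 := tot_other (R := S) (by omega) h2
  apply good_of_tau le_rfl (by omega)
  convert h3 using 1
  · omega
  · omega

/-- The main arithmetic case distinction, for residues of total `2m - 3`. -/
lemma core {m : ℕ} [NeZero m] {α β γ : ℕ} (hm : 5 ≤ m) (hαγ : α ≤ γ) (hγ : γ < m) (hβ : β < m)
    (hsum : α + β + γ + 3 = 2 * m) :
    Good m 1 α γ ∨ Good m 1 γ α ∨ (α = 0 ∧ β = m - 2 ∧ γ = m - 1) ∨
      (α = 0 ∧ β = m - 1 ∧ γ = m - 2) ∨ (α = m - 2 ∧ β = 0 ∧ γ = m - 1) ∨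
      (α = m - 3 ∧ β = 1 ∧ γ = m - 1) := by
  by_cases h1 : α ≤ β
  · by_cases h2 : β - α + 3 ≤ m
    · left
      refine good_family (τ := 1) (I := α) (e := 0) (b := β - α) le_rfl (by omega) (Or.inl rfl)
        (by omega) (by omega) (by omega) ?_
      have : m % (1 + 1) < 2 := Nat.mod_lt _ (by omega)
      omega
    · have h3 : (α = 0 ∧ β = m - 2) ∨ (α = 0 ∧ β = m - 1) ∨ (α = 1 ∧ β = m - 1) := by omega
      rcases h3 with ⟨h3, h4⟩ | ⟨h3, h4⟩ | ⟨h3, h4⟩
      · right; right; left
        omega
      · right; right; right; left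
        omega
      · right; left
        refine good_family (τ := 1) (I := γ) (e := 0) (b := β - γ) le_rfl (by omega)
          (Or.inl rfl) (by omega) (by omega) (by omega) ?_
        have : m % (1 + 1) < 2 := Nat.mod_lt _ (by omega)
        omega
  · push Not at h1
    rcases Nat.eq_or_lt_of_le hαγ with h2 | h2
    · left
      rw [← h2]
      exact good_two hm (by omega)
    rcases Nat.lt_or_ge β 2 with h3 | h3
    · have h4 : β = 0 ∨ β = 1 := by omega
      rcases h4 with h4 | h4
      · right; right; right; right; left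
        omega
      · right; right; right; right; right
        omega
    · left
      -- the ceiling of `(α + 1) / (β + 1)`
      obtain ⟨τ, G, hG, hGβ⟩ : ∃ τ G, α + 1 + G = (β + 1) * τ ∧ G ≤ β := by
        refine ⟨(α + 1 + β) / (β + 1), β - (α + 1 + β) % (β + 1), ?_, by omega⟩
        have h4 := Nat.div_add_mod (α + 1 + β) (β + 1)
        have h5 : (α + 1 + β) % (β + 1) < β + 1 := Nat.mod_lt _ (by omega)
        omega
      have hτ2 : 2 ≤ τ := by
        by_contra h
        have h4 : τ ≤ 1 := by omega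
        have h5 : (β + 1) * τ ≤ (β + 1) * 1 := Nat.mul_le_mul_left _ h4
        omega
      obtain ⟨b, e, hbe, heτ⟩ : ∃ b e, b * τ = G + e ∧ e < τ := by
        refine ⟨(G + τ - 1) / τ, τ - 1 - (G + τ - 1) % τ, ?_, by omega⟩
        have h4 := Nat.div_add_mod (G + τ - 1) τ
        have h5 : (G + τ - 1) % τ < τ := Nat.mod_lt _ (by omega)
        have h6 : τ * ((G + τ - 1) / τ) = (G + τ - 1) / τ * τ := mul_comm _ _
        omega
      have heb : e = 0 ∨ 1 ≤ b := by
        rcases Nat.eq_zero_or_pos b with h | h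
        · left
          subst h
          omega
        · right
          exact h
      have hbG : b ≤ G := by
        by_contra h
        have h4 : (G + 1) * τ ≤ b * τ := Nat.mul_le_mul_right _ (by omega)
        have h5 : (G + 1) * τ = G * τ + τ := by ring
        have h6 : G ≤ G * τ := Nat.le_mul_of_pos_right _ (by omega)
        omega
      obtain ⟨I, hI⟩ : ∃ I, β = b + I := ⟨β - b, by omega⟩
      -- `s = m - 1 - α`, `t = m - 1 - γ`, `s + t = β + 1`
      obtain ⟨s, hs⟩ : ∃ s, m = α + 1 + s := ⟨m - 1 - α, by omega⟩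
      have hs1 : β + 2 ≤ 2 * s := by omega
      have hs2 : s ≤ β + 1 := by omega
      refine good_family (τ := τ) (I := I) (e := e) (b := b) (by omega) heτ heb ?_ ?_ (by omega) ?_
      · -- the bound on the chain
        have h4 : (b + 1) * τ = b * τ + τ := by ring
        rw [h4, hbe]
        rcases Nat.lt_or_ge s 3 with h5 | h5
        · have h6 : s = 2 := by omega
          have h7 : β = 2 := by omega
          subst h7
          have h8 : (2 + 1) * τ = 3 * τ := by ring
          rw [h8] at hG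
          have h9 : b ≤ 1 := by
            by_contra h
            have h10 : 2 * τ ≤ b * τ := Nat.mul_le_mul_right _ (by omega)
            omega
          have h10 : b = 0 ∨ b = 1 := by omega
          rcases h10 with h10 | h10
          · subst h10
            omega
          · subst h10
            omega
        · have h6 : (β - 1) * 2 ≤ (β - 1) * τ := Nat.mul_le_mul_left _ hτ2
          obtain ⟨β', rfl⟩ : ∃ β', β = β' + 1 := ⟨β - 1, by omega⟩
          have h7 : (β' + 1 + 1) * τ = β' * τ + 2 * τ := by ring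
          simp only [Nat.add_sub_cancel] at h6
          omega
      · have h4 : (I + 1) * τ + b * τ = (β + 1) * τ := by rw [hI]; ring
        omega
      · have h4 : m % (τ + 1) < τ + 1 := Nat.mod_lt _ (by omega)
        have h5 : (β - 1 + 1) * 2 ≤ (β - 1 + 1) * τ := Nat.mul_le_mul_left _ hτ2
        have h6 : (β + 1) * τ = (β - 1 + 1) * τ + τ := by
          have : β + 1 = (β - 1 + 1) + 1 := by omega
          rw [this]; ring
        omega

/-! ### Assembly -/

lemma data_of_good {m : ℕ} [NeZero m] (hm : AddMonoid.exponent A = m) {n x z p q r : ℕ}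
    (h : Good m n x z) (hc : (n + 1 + p + q + r) * m = Fintype.card A) :
    Data A (x + m * p) (z + m * r) := by
  obtain ⟨a, c, ha, hc0, hac, ht⟩ := h
  refine data_of_tot hm ha hc0 hac fun k hk => ?_
  have h1 : k = n + p + q + r := by
    have h2 : (k + 1) * m = (n + 1 + p + q + r) * m := by rw [hk, hc]
    have h3 := Nat.eq_of_mul_eq_mul_right (Nat.pos_of_ne_zero (NeZero.ne m)) h2
    omega
  rw [h1]
  exact tot_blocks ht p q r

lemma data_le {m h₁ h₂ h₃ : ℕ} (hm : AddMonoid.exponent A = m) (hm5 : 5 ≤ m)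
    (hc : Fintype.card A = h₁ + h₂ + h₃ + 3) (hle : h₁ % m ≤ h₃ % m)
    (hex : ¬ Exceptional m h₁ h₂ h₃) : Data A h₁ h₃ := by
  have hne : NeZero m := ⟨by omega⟩
  obtain ⟨n, -, -, -, -, -, hcard⟩ := exists_coords (A := A) m hm
  have e1 := Nat.mod_add_div h₁ m
  have e2 := Nat.mod_add_div h₂ m
  have e3 := Nat.mod_add_div h₃ m
  have l1 : h₁ % m < m := Nat.mod_lt _ (by omega)
  have l2 : h₂ % m < m := Nat.mod_lt _ (by omega)
  have l3 : h₃ % m < m := Nat.mod_lt _ (by omega)
  unfold Exceptional at hex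
  set α := h₁ % m with hα
  set β := h₂ % m with hβ
  set γ := h₃ % m with hγ
  set p := h₁ / m with hp
  set q := h₂ / m with hq
  set r := h₃ / m with hr
  clear_value α β γ p q r
  have hsum : α + β + γ + 3 + (p + q + r) * m = (n + 1) * m := by
    rw [hcard, hc]
    have : (p + q + r) * m = m * p + m * q + m * r := by ring
    omega
  obtain ⟨J, hJ⟩ : ∃ J, n + 1 = J + (p + q + r) := by
    refine ⟨n + 1 - (p + q + r), ?_⟩
    have h1 : p + q + r ≤ n + 1 := by
      by_contra h
      have h2 : (n + 1) * m ≤ (p + q + r) * m := Nat.mul_le_mul_right _ (by omega)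
      omega
    omega
  have hJ2 : α + β + γ + 3 = J * m := by
    have h1 := add_mul J (p + q + r) m
    rw [← hJ, ← hsum] at h1
    omega
  have hJ3 : J = 1 ∨ J = 2 ∨ J = 3 := by
    have h1 : J ≠ 0 := by
      rintro rfl
      omega
    have h2 : J < 4 := by
      by_contra h
      have h3 : 4 * m ≤ J * m := Nat.mul_le_mul_right _ (by omega)
      omega
    omega
  have hcA : (J + (p + q + r)) * m = Fintype.card A := by rw [← hJ, hcard]
  rcases hJ3 with rfl | rfl | rfl
  · -- total `m - 3`
    have hg : Good m 0 α γ := good_zigzag (by omega)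
    have := data_of_good hm (n := 0) (p := p) (q := q) (r := r) hg (by rw [← hcA]; ring)
    rwa [e1, e3] at this
  · -- total `2m - 3`
    rcases core hm5 hle l3 l2 hJ2 with hg | hg | ⟨g1, g2, g3⟩ | ⟨g1, g2, g3⟩ | ⟨g1, g2, g3⟩ |
      ⟨g1, g2, g3⟩
    · have := data_of_good hm (n := 1) (p := p) (q := q) (r := r) hg (by rw [← hcA]; ring)
      rwa [e1, e3] at this
    · have := data_of_good hm (n := 1) (p := r) (q := q) (r := p) hg (by rw [← hcA]; ring)
      rw [e1, e3] at this
      exact data_symm this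
    · exact absurd (Or.inl ⟨g2, Or.inl ⟨g1, g3⟩⟩) hex
    · -- `(0, m - 1, m - 2)`
      rcases Nat.eq_zero_or_pos p with hp0 | hp0
      · have h1 : h₁ = 0 := by rw [← e1, g1, hp0]; simp
        have h3 : h₃ = (m - 2) + m * r := by rw [← e3, g3]
        rw [h1, h3]
        apply data_zero hm hm5
        rw [← hcA]
        exact Nat.mul_le_mul_right _ (by omega)
      · obtain ⟨p', hp'⟩ : ∃ p', p = p' + 1 := ⟨p - 1, by omega⟩
        have hg : Good m 2 (m - 2) m := by
          have := good_three (m := m) (b := 1) (N := m - 2) (by omega) (by omega)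
          convert this using 1
          omega
        have := data_of_good hm (n := 2) (p := r) (q := q) (r := p') hg
          (by rw [← hcA, hp']; ring)
        have h1 : h₁ = m + m * p' := by rw [← e1, g1, hp']; ring
        have h3 : h₃ = (m - 2) + m * r := by rw [← e3, g3]
        rw [h1, h3]
        exact data_symm this
    · -- `(m - 2, 0, m - 1)`
      rcases Nat.eq_zero_or_pos q with hq0 | hq0
      · have h2 : h₂ = 0 := by rw [← e2, g2, hq0]; simp
        exact absurd (Or.inr (Or.inl ⟨h2, Or.inr ⟨g1, g3⟩⟩)) hex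
      · obtain ⟨q', hq'⟩ : ∃ q', q = q' + 1 := ⟨q - 1, by omega⟩
        have hg : Good m 2 α γ := by
          have := good_three (m := m) (b := 2) (N := m - 2) (by omega) (by omega)
          convert this using 1
          omega
        have := data_of_good hm (n := 2) (p := p) (q := q') (r := r) hg
          (by rw [← hcA, hq']; ring)
        rwa [e1, e3] at this
    · -- `(m - 3, 1, m - 1)`
      rcases Nat.eq_zero_or_pos q with hq0 | hq0
      · have h2 : h₂ = 1 := by rw [← e2, g2, hq0]; simp
        exact absurd (Or.inr (Or.inr ⟨h2, Or.inr ⟨g1, g3⟩⟩)) hex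
      · obtain ⟨q', hq'⟩ : ∃ q', q = q' + 1 := ⟨q - 1, by omega⟩
        have hg : Good m 2 γ α := by
          have := good_three (m := m) (b := 2) (N := m - 1) (by omega) (by omega)
          convert this using 1
          omega
        have := data_of_good hm (n := 2) (p := r) (q := q') (r := p) hg
          (by rw [← hcA, hq']; ring)
        rw [e1, e3] at this
        exact data_symm this
  · -- total `3m - 3`
    have hg : Good m 2 α γ := by
      have := good_three (m := m) (b := 0) (N := m - 1) (by omega) (by omega)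
      convert this using 1
      · omega
      · omega
    have := data_of_good hm (n := 2) (p := p) (q := q) (r := r) hg (by rw [← hcA]; ring)
    rwa [e1, e3] at this

lemma data_main {m h₁ h₂ h₃ : ℕ} (hm : AddMonoid.exponent A = m) (hm5 : 5 ≤ m)
    (hc : Fintype.card A = h₁ + h₂ + h₃ + 3) (hex : ¬ Exceptional m h₁ h₂ h₃) :
    Data A h₁ h₃ := by
  rcases Nat.le_total (h₁ % m) (h₃ % m) with h | h
  · exact data_le hm hm5 hc h hex
  · apply data_symm
    refine data_le (h₂ := h₂) hm hm5 (by omega) h ?_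
    rintro (⟨a, b | b⟩ | ⟨a, b | b⟩ | ⟨a, b | b⟩)
    · exact hex (Or.inl ⟨a, Or.inr ⟨b.2, b.1⟩⟩)
    · exact hex (Or.inl ⟨a, Or.inl ⟨b.2, b.1⟩⟩)
    · exact hex (Or.inr (Or.inl ⟨a, Or.inr ⟨b.2, b.1⟩⟩))
    · exact hex (Or.inr (Or.inl ⟨a, Or.inl ⟨b.2, b.1⟩⟩))
    · exact hex (Or.inr (Or.inr ⟨a, Or.inr ⟨b.2, b.1⟩⟩))
    · exact hex (Or.inr (Or.inr ⟨a, Or.inl ⟨b.2, b.1⟩⟩))

/-- Being rainbow only depends on the isomorphism class of the tree. -/
lemma isRainbow_of_iso {A : Type*} [Add A] {V W : Type*} {T : SimpleGraph V} {U : SimpleGraph W}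
    (e : T ≃g U) (h : IsRainbow A U) : IsRainbow A T := by
  obtain ⟨f, hf, hl⟩ := h
  refine ⟨f ∘ e, hf.comp e.bijective, ?_⟩
  intro u v u' v' huv huv' h
  have h1 := hl (e u) (e v) (e u') (e v') (e.map_adj_iff.2 huv) (e.map_adj_iff.2 huv') h
  have h2 : Sym2.map e s(u, v) = Sym2.map e s(u', v') := by simpa using h1
  exact Sym2.map.injective e.injective h2

end Pool.Agent.KS6_79.Rainbow
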